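import Pool.Agent.N805.JG.Stm

/-! Project JG: comparison for `r + 1` indices implies comparison for `r` indices (helper136). -/

set_option autoImplicit false

open MeasureTheory Filter Topology

namespace Pool.Agent.N136.JG

open Pool.Agent.N805.JG

theorem MARG : Pool.Agent.N805.JG.S_MARG := by
  intro ι L P Q hP hQ r hD I hI s ε hε
  obtain ⟨i0, hi0⟩ := Infinite.exists_notMem_finset I
  obtain ⟨C, hC⟩ := hP.mom i0 1
  set C' := max C 0 with hC'
  have hC0 : 0 ≤ C' := le_max_right _ _
  set S := 2 * C' / ε + 1 with hS
  have hS0 : 0 < S := by positivity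
  set s' := Function.update s i0 S with hs'
  have hs1 : s' i0 = S := Function.update_self _ _ _
  have hs2 : ∀ i ∈ I, s' i = s i := by
    intro i hi
    have : i ≠ i0 := fun h => hi0 (h ▸ hi)
    exact Function.update_of_ne this _ _
  have hcard : (insert i0 I).card = r + 1 := by
    rw [Finset.card_insert_of_notMem hi0, hI]
  have h1 := hD (insert i0 I) hcard s' (ε / 4) (by positivity)
  filter_upwards [h1, hC] with j h2 h3
  have := hP.prob j
  have := hQ.prob j
  have h4 : F (P j) I s ≤ F (P j) (insert i0 I) s' + (P j).real {x | S ≤ x i0} := by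
    unfold F
    refine (measureReal_mono ?_).trans (measureReal_union_le _ _)
    intro x hx
    rcases le_or_gt (x i0) S with h | h
    · left
      intro i hi
      rcases Finset.mem_insert.1 hi with rfl | hi
      · rw [hs1]
        exact h
      · rw [hs2 i hi]
        exact hx i hi
    · right
      exact h.le
  have h5 : (P j).real {x | S ≤ x i0} ≤ ε / 2 := by
    have h6 := mul_meas_ge_le_integral_of_nonneg (μ := P j) (f := fun x : ℕ → ℝ => x i0)
      (hP.nn j i0) (by simpa using hP.int j i0 1) S
    have h7 : ∫ x, x i0 ∂(P j) ≤ C' := by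
      have h8 : ∫ x, x i0 ^ 1 ∂(P j) = ∫ x, x i0 ∂(P j) := by simp only [pow_one]
      rw [← h8]
      exact h3.trans (le_max_left _ _)
    have h9 : S * (P j).real {x | S ≤ x i0} ≤ C' := h6.trans h7
    have h10 : C' ≤ S * (ε / 2) := by
      rw [hS]
      have : (2 * C' / ε + 1) * (ε / 2) = C' + ε / 2 := by field_simp
      rw [this]
      linarith
    exact le_of_mul_le_mul_left (h9.trans h10) hS0
  have h6 : F (Q j) (insert i0 I) s' ≤ F (Q j) I s := by
    unfold F
    refine measureReal_mono ?_
    intro x hx i hi
    have := hx i (Finset.mem_insert_of_mem hi)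
    rwa [hs2 i hi] at this
  linarith

end Pool.Agent.N136.JG
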